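import Mathlib
import Pool.Agent.H.MP_56939f_al.B

namespace Pool.Agent.Results.MP_56939f_al.Und

open FreeGroup (invRev)
open Pool.Agent.Lib.IMon Pool.Agent.H.MP_56939f_al

theorem result : ∃ (A : Type) (_ : Finite A) (_ : Primcodable A) (R : List (A × Bool) → List (A × Bool) → Prop),
    {p : List (A × Bool) × List (A × Bool) | R p.1 p.2}.Finite ∧
    (∀ s : Inv R, {t | (∃ u, s * q R u = t) ∧ ∃ u, t * q R u = s}.Finite) ∧
    ¬ ComputablePred (fun p : (List (ℕ × (A × Bool) × ℕ) × List ℕ) × List (A × Bool) =>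
      ∃ v ∈ (NFA.mk (fun s a => {t | (s, a, t) ∈ p.1.1}) {0} {t | t ∈ p.1.2}).accepts, q R v = q R p.2) ∧
    ¬ ComputablePred (fun p : List (List (A × Bool)) × List (A × Bool) => q R p.2 ∈ Submonoid.closure (q R '' {u | u ∈ p.1})) ∧
    ¬ ComputablePred (fun p : List (List (A × Bool)) × List (A × Bool) => ∀ H : Submonoid (Inv R),
      (∀ u, q R u ∈ H → q R (invRev u) ∈ H) → (∀ u ∈ p.1, q R u ∈ H) → q R p.2 ∈ H) ∧
    ¬ ComputablePred (fun p : List (List (A × Bool)) × List (A × Bool) => ∀ H : Submonoid (Inv R),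
      (∀ u, q R u ∈ H → q R (invRev u) ∈ H) → (∀ e m : Inv R, e * e = e → e * m ∈ H → m ∈ H) → (∀ u ∈ p.1, q R u ∈ H) → q R p.2 ∈ H) := by
  obtain ⟨X, _, _, S, Y, hS, hY, h⟩ := main
  have a : ∀ (H : Submonoid (Inv (RR (X := X)))) (l : List (W X)), (∀ u ∈ l, q RR u ∈ H) → q RR l.flatten ∈ H := fun H l i => by
    induction l with
    | nil => exact one_mem H
    | cons u l ih => exact mul_mem (i u (.head _)) (ih fun u k => i u (.tail _ k))
  have b : ∀ n (H : Submonoid (Inv (RR (X := X)))), S n → (∀ u ∈ Y n, q RR u ∈ H) → q RR z ∈ H := fun n H i j =>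
    ((h n).1 i).elim fun l k => k.2 ▸ a H l fun u m => j u (k.1 u m)
  have c : ∀ {β : Type} [Primcodable β] {p : β → Prop} {f : ℕ → β}, Primrec f → (∀ n, S n ↔ p (f n)) → ¬ ComputablePred p := fun i j k => by
    obtain ⟨g, l, rfl⟩ := ComputablePred.computable_iff.1 k
    exact hS (ComputablePred.computable_iff.2 ⟨_, l.comp i.to_comp, funext fun n => propext (j n)⟩)
  refine ⟨_, inferInstance, inferInstance, RR (X := X), ((List.finite_length_le _ 3).prod (List.finite_length_le _ 3)).subset ?_, fin,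
    c ((pr_au.comp hY).pair (.const z)) fun n => ⟨fun i => ((h n).1 i).elim fun l k => ⟨_, (acc_au ..).2 ⟨l, k.1, rfl⟩, k.2⟩, fun ⟨v, i, j⟩ => ?_⟩,
    c (hY.pair (.const z)) fun n => ⟨fun i => b n _ i fun u k => Submonoid.subset_closure ⟨u, k, rfl⟩, fun i => ?_⟩,
    c (hY.pair (.const z)) fun n => ⟨fun i H _ => b n H i, fun i => ?_⟩, c (hY.pair (.const z)) fun n => ⟨fun i H _ _ => b n H i, fun i => ?_⟩⟩
  · rintro ⟨u, v⟩ (⟨a, b, s, t, rfl, rfl⟩ | ⟨j, rfl, rfl⟩ | ⟨l, rfl | rfl, rfl⟩) <;> simp [z]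
  all_goals
    by_contra k
    obtain ⟨H, h1, h2, h3, h4⟩ := (h n).2 k
  · obtain ⟨l, m, rfl⟩ := (acc_au ..).1 i
    exact h4 (j ▸ a H l fun u k => h3 u (m u k))
  · exact h4 (Submonoid.closure_le.2 (by rintro _ ⟨u, k, rfl⟩; exact h3 u k) i)
  · exact h4 (i H h1 h3)
  · exact h4 (i H h1 h2 h3)

end Pool.Agent.Results.MP_56939f_al.Und
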